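import Pool.Agent.TH942.ES.NF
import Mathlib.FieldTheory.Finite.Extension

/-! The eigenvalues of weight `i` of a projective variety over a number field, read off from the point
counts: absolute values and invariance under complex conjugation. Modified copy of
`Pool/Agent/W353/PV/Eig.lean`. -/

set_option autoImplicit false

namespace Pool.Agent.V11288.EV

open Complex Filter Topology ComplexConjugate NumberField IsDedekindDomain

theorem sum_poly {D : ℕ} {β β' : ℕ → Multiset ℂ}
    (hs : ∀ e : ℕ, 1 ≤ e →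
      ∑ k ∈ Finset.range D, (-1 : ℂ) ^ k * ((β k).map (fun z => z ^ e)).sum =
      ∑ k ∈ Finset.range D, (-1 : ℂ) ^ k * ((β' k).map (fun z => z ^ e)).sum)
    (g : Polynomial ℂ) :
    ∑ k ∈ Finset.range D, (-1 : ℂ) ^ k * ((β k).map (fun z => z * g.eval z)).sum =
      ∑ k ∈ Finset.range D, (-1 : ℂ) ^ k * ((β' k).map (fun z => z * g.eval z)).sum := by
  induction g using Polynomial.induction_on' with
  | add p q hp hq =>
    simp only [Polynomial.eval_add, mul_add, Multiset.sum_map_add, Finset.sum_add_distrib]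
    rw [hp, hq]
  | monomial n c =>
    have h1 := hs (n + 1) (by omega)
    have e : ∀ z : ℂ, z * (Polynomial.monomial n c).eval z = c * z ^ (n + 1) := by
      intro z
      rw [Polynomial.eval_monomial]
      ring
    simp only [e, Multiset.sum_map_mul_left]
    have e2 : ∀ γ : ℕ → Multiset ℂ, ∑ k ∈ Finset.range D, (-1 : ℂ) ^ k *
        (c * ((γ k).map (fun z => z ^ (n + 1))).sum) =
        c * ∑ k ∈ Finset.range D, (-1 : ℂ) ^ k * ((γ k).map (fun z => z ^ (n + 1))).sum := by
      intro γ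
      rw [Finset.mul_sum]
      exact Finset.sum_congr rfl fun k _ => by ring
    rw [e2, e2, h1]

theorem sum_ind (s : Multiset ℂ) (z : ℂ) (f : ℂ → ℂ) (hf : ∀ y ∈ s, y ≠ z → f y = 0) :
    (s.map f).sum = (s.count z : ℂ) * f z := by
  classical
  induction s using Multiset.induction_on with
  | empty => simp
  | cons y s ih =>
    rw [Multiset.map_cons, Multiset.sum_cons, ih fun x hx => hf x (Multiset.mem_cons_of_mem hx)]
    by_cases h : y = z
    · rw [h, Multiset.count_cons_self]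
      push_cast
      ring
    · rw [hf y (Multiset.mem_cons_self y s) h, Multiset.count_cons_of_ne (Ne.symm h), zero_add]

/-- The multisets are determined by the alternating power sums. -/
theorem mult_unique {D : ℕ} {q : ℝ} (hq : 1 < q) {β β' : ℕ → Multiset ℂ}
    (h : ∀ k, ∀ z ∈ β k, ‖z‖ = q ^ ((k : ℝ) / 2))
    (h' : ∀ k, ∀ z ∈ β' k, ‖z‖ = q ^ ((k : ℝ) / 2))
    (hs : ∀ e : ℕ, 1 ≤ e →
      ∑ k ∈ Finset.range D, (-1 : ℂ) ^ k * ((β k).map (fun z => z ^ e)).sum =
      ∑ k ∈ Finset.range D, (-1 : ℂ) ^ k * ((β' k).map (fun z => z ^ e)).sum)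
    {i : ℕ} (hi : i < D) : β i = β' i := by
  classical
  have hq0 : 0 < q := by linarith
  ext z
  by_cases hz : ‖z‖ = q ^ ((i : ℝ) / 2)
  swap
  · rw [Multiset.count_eq_zero_of_notMem fun hm => hz (h i z hm),
      Multiset.count_eq_zero_of_notMem fun hm => hz (h' i z hm)]
  have hz0 : z ≠ 0 := by
    intro h0
    rw [h0, norm_zero] at hz
    exact (Real.rpow_pos_of_pos hq0 _).ne hz
  have hinj : ∀ k : ℕ, q ^ ((k : ℝ) / 2) = q ^ ((i : ℝ) / 2) → k = i := by
    intro k hk
    have h1 := (Real.strictMono_rpow_of_base_gt_one hq).injective hk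
    have h2 : (k : ℝ) = i := by linarith
    exact_mod_cast h2
  set S : Finset ℂ := (Finset.range D).biUnion fun k => (β k).toFinset ∪ (β' k).toFinset with hS
  set P : Polynomial ℂ := ∏ y ∈ S.erase z, (Polynomial.X - Polynomial.C y) with hP
  have hPz : P.eval z ≠ 0 := by
    rw [hP, Polynomial.eval_prod, Finset.prod_ne_zero_iff]
    intro y hy
    rw [Polynomial.eval_sub, Polynomial.eval_X, Polynomial.eval_C, sub_ne_zero]
    exact (Finset.ne_of_mem_erase hy).symm
  have hP0 : ∀ y ∈ S, y ≠ z → P.eval y = 0 := by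
    intro y hy hyz
    rw [hP, Polynomial.eval_prod]
    refine Finset.prod_eq_zero (Finset.mem_erase.2 ⟨hyz, hy⟩) ?_
    rw [Polynomial.eval_sub, Polynomial.eval_X, Polynomial.eval_C, sub_self]
  have key : ∀ γ : ℕ → Multiset ℂ, (∀ k ∈ Finset.range D, ∀ y ∈ γ k, y ∈ S) →
      (∀ k, ∀ y ∈ γ k, ‖y‖ = q ^ ((k : ℝ) / 2)) →
      ∑ k ∈ Finset.range D, (-1 : ℂ) ^ k * ((γ k).map (fun y => y * P.eval y)).sum =
        (-1 : ℂ) ^ i * (((γ i).count z : ℂ) * (z * P.eval z)) := by
    intro γ h1 h2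
    rw [Finset.sum_eq_single i]
    · rw [sum_ind (γ i) z]
      intro y hy hyz
      rw [hP0 y (h1 i (Finset.mem_range.2 hi) y hy) hyz, mul_zero]
    · intro k hk hki
      rw [sum_ind (γ k) z, Multiset.count_eq_zero_of_notMem, Nat.cast_zero, zero_mul, mul_zero]
      · intro hm
        exact hki (hinj k (by rw [← h2 k z hm, hz]))
      · intro y hy hyz
        rw [hP0 y (h1 k hk y hy) hyz, mul_zero]
    · intro h3
      exact absurd (Finset.mem_range.2 hi) h3
  have e1 := key β (fun k hk y hy => by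
    rw [hS, Finset.mem_biUnion]
    exact ⟨k, hk, Finset.mem_union_left _ (Multiset.mem_toFinset.2 hy)⟩) h
  have e2 := key β' (fun k hk y hy => by
    rw [hS, Finset.mem_biUnion]
    exact ⟨k, hk, Finset.mem_union_right _ (Multiset.mem_toFinset.2 hy)⟩) h'
  rw [sum_poly hs P, e2] at e1
  have h3 : ((β' i).count z : ℂ) = (β i).count z := by
    have h4 := mul_left_cancel₀ (pow_ne_zero i (by norm_num : (-1 : ℂ) ≠ 0)) e1
    exact mul_right_cancel₀ (mul_ne_zero hz0 hPz) h4
  exact_mod_cast h3.symm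

section
variable {K : Type} [Field K] [NumberField K] {n : ℕ}

/-- The set `X` of homogeneous polynomials over `𝓞_K` in `n` variables gives a projective variety over
`K`.  For a field `κ` with `q` elements and a homomorphism `𝓞_K → κ` this is `(q - 1)` times the number
of the points of `X` with coordinates in `κ`: the number of the nonzero solutions of the equations. -/
noncomputable def cone (X : Set (MvPolynomial (Fin n) (𝓞 K))) {κ : Type} [Field κ]
    (φ : 𝓞 K →+* κ) : ℕ :=
  Nat.card {u : Fin n → κ // u ≠ 0 ∧ ∀ f ∈ X, MvPolynomial.eval₂ φ u f = 0}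

/-- `α_1, …, α_N` are the eigenvalues of the geometric Frobenius at the prime `v` of `K` on `H^i(X)`,
for a variety `X` of dimension `d`: there are finite multisets `β_k` of complex numbers of absolute
value `q_v^{k/2}`, `k = 0, …, 2d`, with `β_i = {α_1, …, α_N}`, such that for every finite extension
`κ` of the residue field of `v`, of degree `e`, the number of the points of `X` with coordinates in
`κ` is `∑ (-1)^k ∑_{z ∈ β_k} z^e`.  By the theorem of Deligne such `β_k` exist at almost all primes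
if `X` is smooth, with `N` the `i`-th Betti number of `X`; for `k ≤ 2d` they are unique. -/
def IsFrobenius (X : Set (MvPolynomial (Fin n) (𝓞 K))) (d i : ℕ)
    (v : HeightOneSpectrum (𝓞 K)) {N : ℕ} (α : Fin N → ℂ) : Prop :=
  ∃ β : ℕ → Multiset ℂ, β i = Finset.univ.val.map α ∧
    (∀ k, ∀ z ∈ β k, ‖z‖ = (Ideal.absNorm v.asIdeal : ℝ) ^ ((k : ℝ) / 2)) ∧
    ∀ (κ : Type) [Field κ] [Finite κ] (φ : 𝓞 K →+* κ) (e : ℕ), RingHom.ker φ = v.asIdeal →
      Nat.card κ = Ideal.absNorm v.asIdeal ^ e →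
      (cone X φ : ℂ) = ((Ideal.absNorm v.asIdeal : ℂ) ^ e - 1) *
          ∑ k ∈ Finset.range (2 * d + 1), (-1 : ℂ) ^ k * ((β k).map (fun z => z ^ e)).sum

variable {X : Set (MvPolynomial (Fin n) (𝓞 K))} {d i : ℕ} {v : HeightOneSpectrum (𝓞 K)} {N : ℕ}

theorem one_lt_norm (v : HeightOneSpectrum (𝓞 K)) : (1 : ℝ) < (Ideal.absNorm v.asIdeal : ℝ) := by
  have := Pool.Agent.H921R2.TatePole.two_le_nm v
  have h : (2 : ℕ) ≤ Ideal.absNorm v.asIdeal := this
  exact_mod_cast (by omega : 1 < Ideal.absNorm v.asIdeal)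

/-- there are extensions of the residue field of every degree -/
theorem exists_ext (v : HeightOneSpectrum (𝓞 K)) (e : ℕ) (he : 1 ≤ e) :
    ∃ (κ : Type) (_ : Field κ) (_ : Finite κ) (φ : 𝓞 K →+* κ), RingHom.ker φ = v.asIdeal ∧
      Nat.card κ = Ideal.absNorm v.asIdeal ^ e := by
  have hmax : v.asIdeal.IsMaximal := v.isMaximal
  let _ : Field (𝓞 K ⧸ v.asIdeal) := Ideal.Quotient.field v.asIdeal
  have hfin : Finite (𝓞 K ⧸ v.asIdeal) := by
    have := Pool.Agent.H921R2.TatePole.two_le_nm v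
    have h : (2 : ℕ) ≤ Ideal.absNorm v.asIdeal := this
    rw [Ideal.absNorm_apply, Submodule.cardQuot_apply] at h
    exact Nat.finite_of_card_ne_zero (by omega)
  obtain ⟨p, hp⟩ := CharP.exists (𝓞 K ⧸ v.asIdeal)
  have hpp : Fact p.Prime := ⟨CharP.char_is_prime (𝓞 K ⧸ v.asIdeal) p⟩
  have hne : NeZero e := ⟨by omega⟩
  refine ⟨FiniteField.Extension (𝓞 K ⧸ v.asIdeal) p e, inferInstance, inferInstance,
    (algebraMap _ _).comp (Ideal.Quotient.mk v.asIdeal), ?_, ?_⟩
  · rw [← RingHom.comap_ker, (RingHom.injective_iff_ker_eq_bot _).1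
      (algebraMap (𝓞 K ⧸ v.asIdeal) (FiniteField.Extension (𝓞 K ⧸ v.asIdeal) p e)).injective,
      ← RingHom.ker, Ideal.mk_ker]
  · rw [FiniteField.natCard_extension, Ideal.absNorm_apply, Submodule.cardQuot_apply]

theorem unique' (hi : i ≤ 2 * d) {N' : ℕ} {α : Fin N → ℂ} {α' : Fin N' → ℂ}
    (h : IsFrobenius X d i v α) (h' : IsFrobenius X d i v α') :
    Finset.univ.val.map α = Finset.univ.val.map α' := by
  obtain ⟨β, h1, h2, h3⟩ := h
  obtain ⟨β', h1', h2', h3'⟩ := h'
  rw [← h1, ← h1']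
  refine mult_unique (D := 2 * d + 1) (one_lt_norm v) h2 h2' (fun e he => ?_) (by omega)
  obtain ⟨κ, _, _, φ, hk, hc⟩ := exists_ext v e he
  have e1 := h3 κ φ e hk hc
  rw [h3' κ φ e hk hc] at e1
  refine (mul_left_cancel₀ ?_ e1).symm
  have h4 : (1 : ℝ) < (Ideal.absNorm v.asIdeal : ℝ) ^ e := one_lt_pow₀ (one_lt_norm v) (by omega)
  intro h5
  have h6 : ((Ideal.absNorm v.asIdeal : ℂ) ^ e) = 1 := sub_eq_zero.1 h5
  have h7 : ((Ideal.absNorm v.asIdeal : ℝ) ^ e) = 1 := by exact_mod_cast h6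
  linarith

theorem conj' {α : Fin N → ℂ} (h : IsFrobenius X d i v α) :
    IsFrobenius X d i v (fun j => conj (α j)) := by
  obtain ⟨β, h1, h2, h3⟩ := h
  refine ⟨fun k => (β k).map conj, ?_, ?_, ?_⟩
  · simp only [h1, Multiset.map_map]
    rfl
  · intro k z hz
    obtain ⟨y, hy, rfl⟩ := Multiset.mem_map.1 hz
    rw [Complex.norm_conj]
    exact h2 k y hy
  · intro κ _ _ φ e hk hc
    have e1 := congrArg conj (h3 κ φ e hk hc)
    rw [Complex.conj_natCast] at e1
    rw [e1, map_mul, map_sub, map_pow, map_one, Complex.conj_natCast, map_sum]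
    congr 1
    refine Finset.sum_congr rfl fun k _ => ?_
    rw [map_mul, map_pow, map_neg, map_one, map_multiset_sum, Multiset.map_map, Multiset.map_map]
    congr 3
    funext z
    simp

theorem norm' {α : Fin N → ℂ} (h : IsFrobenius X d i v α) (j : Fin N) :
    ‖α j‖ = (Ideal.absNorm v.asIdeal : ℝ) ^ ((i : ℝ) / 2) := by
  obtain ⟨β, h1, h2, h3⟩ := h
  refine h2 i (α j) ?_
  rw [h1, Multiset.mem_map]
  exact ⟨j, Finset.mem_univ_val j, rfl⟩

/-- symmetric sums commuting with conjugation are real -/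
theorem real_sum (hi : i ≤ 2 * d) {α : Fin N → ℂ} (h : IsFrobenius X d i v α) (g : ℂ → ℂ)
    (hg : ∀ j, g (conj (α j)) = conj (g (α j))) : (∑ j, g (α j)).im = 0 := by
  have h1 := unique' hi h (conj' h)
  have h2 := congrArg (fun s : Multiset ℂ => (s.map g).sum) h1
  simp only [Multiset.map_map] at h2
  change ∑ j, g (α j) = ∑ j, g (conj (α j)) at h2
  simp only [hg] at h2
  rw [← map_sum] at h2
  exact Complex.conj_eq_iff_im.1 h2.symm

end

end Pool.Agent.V11288.EV
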